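import Pool.Agent.Helper96.SE.Stmts
import Pool.Agent.Helper58.Grid.Deg
import Pool.Agent.Helper52.Grid.Eval

set_option autoImplicit false

/-! # se_mods DEG: the edges of an assignment form a 2-factor -/

namespace Pool.Agent.Helper96.SE

open Pool.Agent.Helper52.Grid

/-! ## Local functions -/

/-- is an edge of cost `c` used, `o`: the choice for optional edges -/
def degU (c : ℕ) (o : Bool) : Bool := if c = 0 then true else if c = 2 then o else false

/-- cost of the edge to the left neighbour -/
def degWC (ρ : RK) (r x : ℕ) : ℕ := if x = 0 then (if r % 2 = 1 then 0 else 4) else hE ρ r (x - 1)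

/-- is the edge to the left neighbour used -/
def degWU (ρ : RK) (f g : Bool) (r x : ℕ) : Bool :=
  if x = 0 then decide (r % 2 = 1) else degU (hE ρ r (x - 1)) (hOE ρ f g r (x - 1))

/-- cost of the edge to the upper neighbour -/
def degN (ρ : RK) (i r x : ℕ) : ℕ :=
  if r = 0 then (if x < 16 then (if ρ = .L then vE .U 0 5 x else 4) else
    (if x = 18 ∧ i % 2 = 0 then 0 else 4)) else vE ρ i (r - 1) x

/-- is the edge to the upper neighbour used -/
def degNU (ρ : RK) (f g : Bool) (i r x : ℕ) : Bool :=
  if r = 0 then (if x < 16 then (if ρ = .L then degU (vE .U 0 5 x) (vOE .U g g 5 x) else false)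
    else decide (x = 18 ∧ i % 2 = 0)) else degU (vE ρ i (r - 1) x) (vOE ρ f g (r - 1) x)

theorem deg_loc (ρ : RK) (f g : Bool) (i : Fin 2) (r : Fin 6) (x : Fin 19) :
    (hE ρ r x = 0 ∨ degWC ρ r x = 0 ∨ vE ρ i r x = 0 ∨ degN ρ i r x = 0) →
      (degU (hE ρ r x) (hOE ρ f g r x)).toNat + (degWU ρ f g r x).toNat +
        (degU (vE ρ i r x) (vOE ρ f g r x)).toNat + (degNU ρ f g i r x).toNat = 2 := by
  revert i r x
  cases ρ <;> cases f <;> cases g <;> decide +kernel

theorem deg_h2 (ρ : RK) (i : Fin 2) (r : Fin 6) (x : Fin 19) : hE ρ r x = 2 →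
    (x : ℕ) < 18 ∧ (degWC ρ r x = 0 ∨ vE ρ i r x = 0 ∨ (1 ≤ (r : ℕ) ∧ vE ρ i (r - 1) x = 0)) ∧
      (hE ρ r (x + 1) = 0 ∨ vE ρ i r (x + 1) = 0 ∨ (1 ≤ (r : ℕ) ∧ vE ρ i (r - 1) (x + 1) = 0)) := by
  revert i r x
  cases ρ <;> decide +kernel

theorem deg_v2 (ρ : RK) (i : Fin 2) (r : Fin 6) (x : Fin 19) : vE ρ i r x = 2 →
    (hE ρ r x = 0 ∨ degWC ρ r x = 0 ∨ vE ρ i r x = 0 ∨ (1 ≤ (r : ℕ) ∧ vE ρ i (r - 1) x = 0)) ∧
      (((r : ℕ) < 5 ∧ (hE ρ (r + 1) x = 0 ∨ degWC ρ (r + 1) x = 0 ∨ vE ρ i (r + 1) x = 0)) ∨
      ((r : ℕ) = 5 ∧ ρ = .U ∧ (hE .L 0 x = 0 ∨ degWC .L 0 x = 0 ∨ vE .L (i + 1) 0 x = 0))) := by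
  revert i r x
  cases ρ <;> decide +kernel

theorem deg_vE_mod (ρ : RK) (i r x : ℕ) : vE ρ i r x = vE ρ (i % 2) r x := by
  unfold vE vR
  simp only [Nat.mod_mod]

theorem deg_hE_big (ρ : RK) (r x : ℕ) (hx : 18 ≤ x) : hE ρ r x = 4 := by
  obtain ⟨y, rfl⟩ : ∃ y, x = y + 18 := ⟨x - 18, by omega⟩
  unfold hE
  rw [if_neg (by omega), if_neg (by omega), if_neg (by omega),
    show y + 18 - 16 = y + 2 by omega]
  unfold hR
  split <;> simp_all

theorem deg_vE_big (ρ : RK) (i r x : ℕ) (hx : 19 ≤ x) : vE ρ i r x = 4 := by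
  obtain ⟨y, rfl⟩ : ∃ y, x = y + 19 := ⟨x - 19, by omega⟩
  unfold vE
  rw [if_neg (by omega), if_neg (by omega), if_neg (by omega),
    show y + 19 - 16 = y + 3 by omega]
  unfold vR
  rfl

section
variable {s : List Sub} {M : ℕ} {T : ℕ → Bool} {a ch : ℕ → Bool}

theorem deg_hNU_eq {x y : ℕ} (hx : 5 + 4 * s.length ≤ x) : hNU s M T a ch x y =
    degU (hN s M T x y) (hOE (rk T ((y - 4) / 6)) (bst s a ((y - 4) / 6) s.length)
      (bst s a ((y - 4) / 6 - 1) s.length) ((y - 4) % 6) (x - (5 + 4 * s.length))) := by
  unfold hNU degU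
  rw [if_neg (by omega)]

theorem deg_vNU_eq {x y : ℕ} (hx : 5 + 4 * s.length ≤ x) : vNU s M T a ch x y =
    degU (vN s M T x y) (vOE (rk T ((y - 4) / 6)) (bst s a ((y - 4) / 6) s.length)
      (bst s a ((y - 4) / 6 - 1) s.length) ((y - 4) % 6) (x - (5 + 4 * s.length))) := by
  unfold vNU degU
  rw [if_neg (by omega)]

theorem deg_west (h0 : 0 < s.length → sg s 0 = none) (y : ℕ) :
    hN s M T (4 + 4 * s.length) y = (if y < 4 then (if y = 3 then 0 else 4) else
      if (y - 4) / 6 < 2 * M + 1 then (if (y - 4) % 6 % 2 = 1 then 0 else 4) else 4) := by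
  rw [hN_old (by omega)]
  rcases Pool.Agent.Helper58.Grid.pos_y M y with hy | ⟨i, r, hi, hr, rfl⟩ | hy
  · rw [if_pos hy]
    rcases Nat.eq_zero_or_pos y with h | h
    · subst h
      rw [if_neg (by omega)]
      exact hC_y0 _ _ _
    · rw [Pool.Agent.Helper58.Grid.west_top h0 le_rfl hy h]
      have : sg s s.length = none := sg_of_le le_rfl
      simp [this]
  · rw [if_neg (by omega), if_pos (by omega), Pool.Agent.Helper58.Grid.hC_west le_rfl hi hr]
    have : (4 + 6 * i + r - 4) % 6 = r := by omega
    rw [this]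
  · rw [Pool.Agent.Helper58.Grid.hC_bot hy, if_neg (by omega), if_neg (by omega)]

theorem deg_west_use (h0 : 0 < s.length → sg s 0 = none) (y : ℕ) :
    hNU s M T a ch (4 + 4 * s.length) y = decide (hN s M T (4 + 4 * s.length) y = 0) := by
  have h := deg_west (M := M) (T := T) h0 y
  have h2 : hC s M (4 + 4 * s.length) y ≠ 2 := by
    rw [hN_old (by omega)] at h
    rw [h]
    split_ifs <;> norm_num
  rw [hNU_old (by omega), hN_old (by omega), Pool.Agent.Helper58.Grid.use_of_ne_two_h h2]

theorem deg_vert_old {x y : ℕ} (hx : x < 5 + 4 * s.length) :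
    Vert (hN s M T) (vN s M T) (x, y) ↔ Vert (hC s M) (vC s M) (x, y) := by
  unfold Vert
  simp only
  rw [hN_old hx, hN_old (by omega), vN_old hx, vN_old hx]

/-- the kind of the row above -/
theorem deg_above (hT : VT M T) {i : ℕ} (hi : 1 ≤ i) : rk T i = .L ↔ rk T (i - 1) = .U := by
  unfold rk
  by_cases h : T (i - 1) = true
  · have h1 := hT.sep _ h
    rw [show i - 1 + 1 = i by omega] at h1
    simp [h, h1, show i ≠ 0 by omega]
  · by_cases h2 : T i = true
    · simp [h, h2]
      split_ifs <;> simp
    · simp [h, h2]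
      split_ifs <;> simp

theorem deg_vE5 (i x : ℕ) (ρ : RK) (hρ : ρ ≠ .U) (hx : x < 16) : vE ρ i 5 x = 4 := by
  have key : ∀ (ρ : RK) (x : Fin 16), ρ ≠ .U → vE ρ 0 5 x = 4 ∧ vE ρ 1 5 x = 4 := by
    intro ρ
    cases ρ <;> decide +kernel
  rw [deg_vE_mod]
  obtain ⟨k1, k2⟩ := key ρ ⟨x, hx⟩ hρ
  rcases Nat.mod_two_eq_zero_or_one i with h | h <;> rw [h]
  · exact k1
  · exact k2

theorem deg_vE_U (i x : ℕ) (hx : x < 16) : vE .U i 5 x = vE .U 0 5 x := by
  unfold vE
  simp only [show x < 16 from hx, if_true]

theorem deg_vE_right (i x : ℕ) (ρ : RK) (hx : 16 ≤ x) :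
    vE ρ i 5 x = if x = 18 ∧ (i + 1) % 2 = 0 then 0 else 4 := by
  unfold vE
  rw [if_neg (by omega), if_neg (by omega), if_neg (by omega)]
  by_cases h18 : x = 18
  · subst h18
    rcases Nat.mod_two_eq_zero_or_one i with h | h
    · rw [if_neg (by omega)]
      simp [vR, h]
    · rw [if_pos (by omega)]
      simp [vR, h]
  · rw [if_neg (by omega)]
    rcases Nat.lt_or_ge x 19 with h | h
    · obtain rfl | rfl : x = 16 ∨ x = 17 := by omega
      · rfl
      · rfl
    · obtain ⟨y, rfl⟩ : ∃ y, x = y + 19 := ⟨x - 19, by omega⟩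
      rw [show y + 19 - 16 = y + 3 by omega]
      rfl

/-- the upper neighbour of a vertex on the line 0 -/
theorem deg_north0 (hT : VT M T) {i x : ℕ} (hi : i < 2 * M + 1) :
    vN s M T (5 + 4 * s.length + x) (3 + 6 * i) = degN (rk T i) i 0 x := by
  unfold degN
  rw [if_pos rfl]
  rcases i with _ | i
  · rw [show 3 + 6 * 0 = 3 from rfl, vN_top (by omega) (by norm_num)]
    have hL : rk T 0 ≠ .L := by
      unfold rk
      split_ifs with h1 h2
      · simp
      · exact absurd rfl h2.1
      · simp
    rw [if_neg hL]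
    by_cases h : x = 18
    · rw [if_pos ⟨rfl, by omega⟩, if_neg (by omega), if_pos ⟨h, rfl⟩]
    · rw [if_neg (by omega)]
      split_ifs with h1 h2
      · rfl
      · exact absurd h2.1 h
      · rfl
  · rw [vN_row (i := i) (r := 5) (x := x) (by omega) (by norm_num) rfl (by omega)]
    have hab := deg_above hT (i := i + 1) (by omega)
    rw [Nat.add_sub_cancel] at hab
    by_cases hx : x < 16
    · rw [if_pos hx]
      by_cases hU : rk T i = .U
      · rw [if_pos (hab.2 hU), hU, deg_vE_U i x hx]
      · rw [if_neg (fun h => hU (hab.1 h)), deg_vE5 i x _ hU hx]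
    · rw [if_neg hx, deg_vE_right i x _ (by omega)]

theorem deg_north0_use (hT : VT M T) {i x : ℕ} (hi : i < 2 * M + 1) (f : Bool) :
    vNU s M T a ch (5 + 4 * s.length + x) (3 + 6 * i) =
      degNU (rk T i) f (bst s a (i - 1) s.length) i 0 x := by
  have hn := deg_north0 (s := s) (M := M) (T := T) (x := x) hT hi
  rw [deg_vNU_eq (by omega), hn]
  unfold degN degNU
  rw [if_pos rfl, if_pos rfl, show 5 + 4 * s.length + x - (5 + 4 * s.length) = x by omega]
  by_cases hx : x < 16
  · rw [if_pos hx, if_pos hx]
    by_cases hL : rk T i = .L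
    · rw [if_pos hL, if_pos hL]
      have hi1 : 1 ≤ i := by
        rcases Nat.eq_zero_or_pos i with h | h
        · subst h
          unfold rk at hL
          split_ifs at hL with h1 h2
          exact absurd rfl h2.1
        · exact h
      have hU := (deg_above hT hi1).1 hL
      have e1 : (3 + 6 * i - 4) / 6 = i - 1 := by omega
      have e2 : (3 + 6 * i - 4) % 6 = 5 := by omega
      rw [e1, e2, hU]
      unfold degU
      split_ifs
      · rfl
      · unfold vOE
        rw [if_pos hx]
      · rfl
    · rw [if_neg hL, if_neg hL]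
      rfl
  · rw [if_neg hx, if_neg hx]
    by_cases h : x = 18 ∧ i % 2 = 0
    · rw [if_pos h, decide_eq_true h]
      rfl
    · rw [if_neg h, decide_eq_false h]
      rfl

theorem deg_hx {i r x x' y : ℕ} (hi : i < 2 * M + 1) (hr : r < 6)
    (hx : x' = 5 + 4 * s.length + x) (hy : y = 4 + 6 * i + r) :
    hNU s M T a ch x' y = degU (hE (rk T i) r x) (hOE (rk T i) (bst s a i s.length)
      (bst s a (i - 1) s.length) r x) := hNU_row hi hr hx hy

theorem deg_vx {i r x x' y : ℕ} (hi : i < 2 * M + 1) (hr : r < 6)
    (hx : x' = 5 + 4 * s.length + x) (hy : y = 4 + 6 * i + r) :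
    vNU s M T a ch x' y = degU (vE (rk T i) i r x) (vOE (rk T i) (bst s a i s.length)
      (bst s a (i - 1) s.length) r x) := vNU_row hi hr hx hy

theorem deg_mod_U (ρ : RK) (f g : Bool) (i r x : ℕ) : degNU ρ f g i r x = degNU ρ f g (i % 2) r x := by
  unfold degNU
  rw [deg_vE_mod ρ i (r - 1) x, Nat.mod_mod]

theorem deg_mod_C (ρ : RK) (i r x : ℕ) : degN ρ i r x = degN ρ (i % 2) r x := by
  unfold degN
  rw [deg_vE_mod ρ i (r - 1) x, Nat.mod_mod]

theorem deg_no_bot (hT : VT M T) (x y : ℕ) (hy : 4 + 6 * (2 * M + 1) ≤ y) :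
    ¬ Vert (hN s M T) (vN s M T) (5 + 4 * s.length + x, y) := by
  rintro (h | h | h | h)
  · simp only at h
    rw [hN_bot hy] at h
    omega
  · simp only at h
    rw [hN_bot hy] at h
    omega
  · simp only at h
    rw [vN_bot hy] at h
    omega
  · simp only at h
    rcases Nat.lt_or_ge (y - 1) (4 + 6 * (2 * M + 1)) with h1 | h1
    · rw [vN_row (i := 2 * M) (r := 5) (x := x) (by omega) (by norm_num) rfl (by omega)] at h
      have hU : rk T (2 * M) ≠ .U := by
        unfold rk
        by_cases h3 : T (2 * M) = true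
        · have := hT.lt _ h3
          omega
        · rw [if_neg h3]
          split_ifs <;> simp
      by_cases hx : x < 16
      · rw [deg_vE5 _ _ _ hU hx] at h
        omega
      · rw [deg_vE_right _ _ _ (by omega), if_neg (by omega)] at h
        omega
    · rw [vN_bot h1] at h
      omega

end

theorem deg_vert_h {h v : ℕ → ℕ → ℕ} {x y : ℕ} (e : h x y = 0) : Vert h v (x, y) := Or.inl e

theorem deg_vert_w {h v : ℕ → ℕ → ℕ} {x y : ℕ} (e : h x y = 0) : Vert h v (x + 1, y) :=
  Or.inr (Or.inl e)

theorem deg_vert_v {h v : ℕ → ℕ → ℕ} {x y : ℕ} (e : v x y = 0) : Vert h v (x, y) :=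
  Or.inr (Or.inr (Or.inl e))

theorem deg_vert_n {h v : ℕ → ℕ → ℕ} {x y : ℕ} (e : v x y = 0) : Vert h v (x, y + 1) :=
  Or.inr (Or.inr (Or.inr e))

section
variable {s : List Sub} {M : ℕ} {T : ℕ → Bool}

/-- a vertex of the additional columns, from the local costs -/
theorem deg_vert_loc (h0 : 0 < s.length → sg s 0 = none) {i r x : ℕ} (hi : i < 2 * M + 1)
    (hr : r < 6) (h : hE (rk T i) r x = 0 ∨ degWC (rk T i) r x = 0 ∨ vE (rk T i) i r x = 0 ∨
      (1 ≤ r ∧ vE (rk T i) i (r - 1) x = 0)) :
    Vert (hN s M T) (vN s M T) (5 + 4 * s.length + x, 4 + 6 * i + r) := by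
  rcases h with h | h | h | ⟨h1, h⟩
  · apply deg_vert_h
    rw [hN_row hi hr rfl rfl]
    exact h
  · unfold degWC at h
    by_cases hx : x = 0
    · rw [if_pos hx] at h
      have hw := deg_west (M := M) (T := T) h0 (4 + 6 * i + r)
      have h2 : hN s M T (4 + 4 * s.length) (4 + 6 * i + r) = 0 := by
        rw [hw, if_neg (by omega), if_pos (by omega), show (4 + 6 * i + r - 4) % 6 = r by omega]
        exact h
      have h3 := deg_vert_w (v := vN s M T) h2
      rwa [show 4 + 4 * s.length + 1 = 5 + 4 * s.length + x by omega] at h3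
    · rw [if_neg hx] at h
      have h2 : hN s M T (5 + 4 * s.length + (x - 1)) (4 + 6 * i + r) = 0 := by
        rw [hN_row hi hr rfl rfl]
        exact h
      have h3 := deg_vert_w (v := vN s M T) h2
      rwa [show 5 + 4 * s.length + (x - 1) + 1 = 5 + 4 * s.length + x by omega] at h3
  · apply deg_vert_v
    rw [vN_row hi hr rfl rfl]
    exact h
  · have h2 : vN s M T (5 + 4 * s.length + x) (4 + 6 * i + (r - 1)) = 0 := by
      rw [vN_row hi (by omega) rfl rfl]
      exact h
    have h3 := deg_vert_n (h := hN s M T) h2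
    rwa [show 4 + 6 * i + (r - 1) + 1 = 4 + 6 * i + r by omega] at h3

theorem deg_top_h (x y : ℕ) (hy : y < 4) : hN s M T (5 + 4 * s.length + x) y =
    if y = 3 ∧ x < 18 then 0 else 4 := by
  rw [hN_top (by omega) hy]
  by_cases h : y = 3 ∧ x < 18
  · rw [if_pos h, if_pos (by omega)]
  · rw [if_neg h, if_neg (by omega)]

theorem deg_top_v (x y : ℕ) (hy : y < 4) : vN s M T (5 + 4 * s.length + x) y =
    if y = 3 ∧ x = 18 then 0 else 4 := by
  rw [vN_top (by omega) hy]
  by_cases h : y = 3 ∧ x = 18
  · rw [if_pos h, if_pos (by omega)]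
  · rw [if_neg h, if_neg (by omega)]

end

theorem st_DEG : ST_DEG := by
  intro s M T a ch hs h0 hT hch
  obtain ⟨d1, d2, d3⟩ := Pool.Agent.Helper58.Grid.deg s M a ch hs h0 hch
  refine ⟨?_, ?_, ?_, ?_, ?_, ?_, ?_⟩
  · intro x y h
    rcases Nat.lt_or_ge x (5 + 4 * s.length) with hx | hx
    · rw [hN_old hx] at h
      rw [hNU_old hx]
      unfold hUse
      rw [if_pos h]
    · rw [deg_hNU_eq hx]
      unfold degU
      rw [if_pos h]
  · intro x y h h'
    rcases Nat.lt_or_ge x (5 + 4 * s.length) with hx | hx
    · rw [hN_old hx] at h h'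
      rw [hNU_old hx]
      unfold hUse
      rw [if_neg h, if_neg h']
    · rw [deg_hNU_eq hx]
      unfold degU
      rw [if_neg h, if_neg h']
  · intro x y h
    rcases Nat.lt_or_ge x (5 + 4 * s.length) with hx | hx
    · rw [vN_old hx] at h
      rw [vNU_old hx]
      unfold vUse
      rw [if_pos h]
    · rw [deg_vNU_eq hx]
      unfold degU
      rw [if_pos h]
  · intro x y h h'
    rcases Nat.lt_or_ge x (5 + 4 * s.length) with hx | hx
    · rw [vN_old hx] at h h'
      rw [vNU_old hx]
      unfold vUse
      rw [if_neg h, if_neg h']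
    · rw [deg_vNU_eq hx]
      unfold degU
      rw [if_neg h, if_neg h']
  · intro x y h
    by_cases hc : hN s M T x y = 0
    · exact ⟨deg_vert_h hc, deg_vert_w hc⟩
    · rcases Nat.lt_or_ge x (5 + 4 * s.length) with hx | hx
      · by_cases hx1 : x = 4 + 4 * s.length
        · exfalso
          rw [hx1, deg_west_use h0] at h
          rw [hx1] at hc
          simp [hc] at h
        · rw [hNU_old hx] at h
          obtain ⟨e1, e2⟩ := d1 x y h
          exact ⟨(deg_vert_old hx).2 e1, (deg_vert_old (by omega)).2 e2⟩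
      · obtain ⟨x', rfl⟩ : ∃ x', x = 5 + 4 * s.length + x' := ⟨x - (5 + 4 * s.length), by omega⟩
        rcases Pool.Agent.Helper58.Grid.pos_y M y with hy | ⟨i, r, hi, hr, rfl⟩ | hy
        · exfalso
          rw [deg_hNU_eq hx, deg_top_h x' y hy] at h
          rw [deg_top_h x' y hy] at hc
          split_ifs at h hc with h1
          · omega
          · simp [degU] at h
        · rw [deg_hx hi hr rfl rfl] at h
          rw [hN_row hi hr rfl rfl] at hc
          have h2 : hE (rk T i) r x' = 2 := by
            unfold degU at h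
            rw [if_neg hc] at h
            split_ifs at h with h3
            exact h3
          have hx18 : x' < 18 := by
            by_contra h3
            rw [deg_hE_big _ _ _ (by omega)] at h2
            omega
          obtain ⟨_, g1, g2⟩ := deg_h2 (rk T i) ⟨i % 2, by omega⟩ ⟨r, hr⟩ ⟨x', by omega⟩ h2
          simp only at g1 g2
          rw [← deg_vE_mod, ← deg_vE_mod] at g1 g2
          refine ⟨deg_vert_loc h0 hi hr (Or.inr g1), ?_⟩
          rw [add_assoc]
          refine deg_vert_loc h0 hi hr ?_
          rcases g2 with g2 | g2 | g2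
          · exact Or.inl g2
          · exact Or.inr (Or.inr (Or.inl g2))
          · exact Or.inr (Or.inr (Or.inr g2))
        · exfalso
          rw [deg_hNU_eq hx, hN_bot hy] at h
          simp [degU] at h
  · intro x y h
    by_cases hc : vN s M T x y = 0
    · exact ⟨deg_vert_v hc, deg_vert_n hc⟩
    · rcases Nat.lt_or_ge x (5 + 4 * s.length) with hx | hx
      · rw [vNU_old hx] at h
        obtain ⟨e1, e2⟩ := d2 x y h
        exact ⟨(deg_vert_old hx).2 e1, (deg_vert_old hx).2 e2⟩
      · obtain ⟨x', rfl⟩ : ∃ x', x = 5 + 4 * s.length + x' := ⟨x - (5 + 4 * s.length), by omega⟩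
        rcases Pool.Agent.Helper58.Grid.pos_y M y with hy | ⟨i, r, hi, hr, rfl⟩ | hy
        · exfalso
          rw [deg_vNU_eq hx, deg_top_v x' y hy] at h
          rw [deg_top_v x' y hy] at hc
          split_ifs at h hc with h1
          · omega
          · simp [degU] at h
        · rw [deg_vx hi hr rfl rfl] at h
          rw [vN_row hi hr rfl rfl] at hc
          have h2 : vE (rk T i) i r x' = 2 := by
            unfold degU at h
            rw [if_neg hc] at h
            split_ifs at h with h3
            exact h3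
          have hx18 : x' < 19 := by
            by_contra h3
            rw [deg_vE_big _ _ _ _ (by omega)] at h2
            omega
          rw [deg_vE_mod] at h2
          obtain ⟨g1, g2⟩ := deg_v2 (rk T i) ⟨i % 2, by omega⟩ ⟨r, hr⟩ ⟨x', by omega⟩ h2
          simp only at g1 g2
          have m1 : ∀ r', vE (rk T i) (i % 2) r' x' = vE (rk T i) i r' x' := fun r' =>
            (deg_vE_mod _ _ _ _).symm
          simp only [m1] at g1 g2
          refine ⟨deg_vert_loc h0 hi hr g1, ?_⟩
          rcases g2 with ⟨g2, g3⟩ | ⟨g2, g3, g4⟩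
          · rw [show 4 + 6 * i + r + 1 = 4 + 6 * i + (r + 1) by omega]
            refine deg_vert_loc h0 hi (by omega) ?_
            rcases g3 with g3 | g3 | g3
            · exact Or.inl g3
            · exact Or.inr (Or.inl g3)
            · exact Or.inr (Or.inr (Or.inl g3))
          · have hTi : T i = true := by
              unfold rk at g3
              by_contra h3
              rw [if_neg h3] at g3
              split_ifs at g3
            have hi1 := hT.lt _ hTi
            have hL : rk T (i + 1) = .L := (deg_above hT (by omega)).2 (by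
              rw [Nat.add_sub_cancel]
              exact g3)
            rw [show 4 + 6 * i + r + 1 = 4 + 6 * (i + 1) + 0 by omega]
            refine deg_vert_loc h0 hi1 (by norm_num) ?_
            rw [hL]
            rcases g4 with g4 | g4 | g4
            · exact Or.inl g4
            · exact Or.inr (Or.inl g4)
            · refine Or.inr (Or.inr (Or.inl ?_))
              rw [deg_vE_mod] at g4 ⊢
              rw [show (i % 2 + 1) % 2 = (i + 1) % 2 by omega] at g4
              exact g4
        · exfalso
          rw [deg_vNU_eq hx, vN_bot hy] at h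
          simp [degU] at h
  · intro x y hv
    rcases Nat.lt_or_ge (x + 1) (5 + 4 * s.length) with hx | hx
    · rw [hNU_old hx, hNU_old (by omega), vNU_old hx, vNU_old hx]
      exact d3 x y ((deg_vert_old hx).1 hv)
    · obtain ⟨x', hx'⟩ : ∃ x', x + 1 = 5 + 4 * s.length + x' :=
        ⟨x + 1 - (5 + 4 * s.length), by omega⟩
      rcases Pool.Agent.Helper58.Grid.pos_y M (y + 1) with hy | ⟨i, r, hi, hr, hy⟩ | hy
      · -- top
        have f1 : hN s M T (x + 1) (y + 1) = if y + 1 = 3 ∧ x' < 18 then 0 else 4 := by
          rw [hx']; exact deg_top_h x' _ hy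
        have f2 : vN s M T (x + 1) (y + 1) = if y + 1 = 3 ∧ x' = 18 then 0 else 4 := by
          rw [hx']; exact deg_top_v x' _ hy
        have f3 : vN s M T (x + 1) y = 4 := by
          rw [hx', deg_top_v x' _ (by omega), if_neg (by omega)]
        have f4 : hN s M T x (y + 1) = if y + 1 = 3 ∧ x' < 19 then 0 else 4 := by
          rcases x' with _ | x'
          · rw [show x = 4 + 4 * s.length by omega, deg_west h0, if_pos hy]
            by_cases h3 : y + 1 = 3
            · rw [if_pos h3, if_pos (by omega)]
            · rw [if_neg h3, if_neg (by omega)]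
          · rw [show x = 5 + 4 * s.length + x' by omega, deg_top_h x' _ hy]
            by_cases h3 : y + 1 = 3 ∧ x' < 18
            · rw [if_pos h3, if_pos (by omega)]
            · rw [if_neg h3, if_neg (by omega)]
        have u1 : hNU s M T a ch (x + 1) (y + 1) = decide (y + 1 = 3 ∧ x' < 18) := by
          rw [deg_hNU_eq hx, f1]
          by_cases h3 : y + 1 = 3 ∧ x' < 18
          · rw [if_pos h3, decide_eq_true h3]; rfl
          · rw [if_neg h3, decide_eq_false h3]; rfl
        have u2 : vNU s M T a ch (x + 1) (y + 1) = decide (y + 1 = 3 ∧ x' = 18) := by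
          rw [deg_vNU_eq hx, f2]
          by_cases h3 : y + 1 = 3 ∧ x' = 18
          · rw [if_pos h3, decide_eq_true h3]; rfl
          · rw [if_neg h3, decide_eq_false h3]; rfl
        have u3 : vNU s M T a ch (x + 1) y = false := by
          rw [deg_vNU_eq hx, f3]; rfl
        have u4 : hNU s M T a ch x (y + 1) = decide (y + 1 = 3 ∧ x' < 19) := by
          rcases x' with _ | x'
          · rw [show x = 4 + 4 * s.length by omega, deg_west_use h0, deg_west h0, if_pos hy]
            by_cases h3 : y + 1 = 3
            · rw [if_pos h3, decide_eq_true (by rfl), decide_eq_true ⟨h3, by omega⟩]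
            · rw [if_neg h3, decide_eq_false (by norm_num), decide_eq_false (by omega)]
          · rw [deg_hNU_eq (by omega), f4]
            by_cases h3 : y + 1 = 3 ∧ x' + 1 < 19
            · rw [if_pos h3, decide_eq_true h3]; rfl
            · rw [if_neg h3, decide_eq_false h3]; rfl
        rw [u1, u2, u3, u4]
        have hv' : y + 1 = 3 ∧ x' < 19 := by
          by_contra h3
          rcases hv with h | h | h | h
          · simp only at h
            rw [f1, if_neg (by omega)] at h
            omega
          · simp only [Nat.add_sub_cancel] at h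
            rw [f4, if_neg h3] at h
            omega
          · simp only at h
            rw [f2, if_neg (by omega)] at h
            omega
          · simp only [Nat.add_sub_cancel] at h
            rw [f3] at h
            omega
        rw [decide_eq_true hv']
        by_cases h18 : x' = 18
        · rw [decide_eq_false (by omega), decide_eq_true ⟨hv'.1, h18⟩]
          rfl
        · rw [decide_eq_true ⟨hv'.1, by omega⟩, decide_eq_false (by omega)]
          rfl
      · -- rows
        have c1 : hN s M T (x + 1) (y + 1) = hE (rk T i) r x' := hN_row hi hr hx' hy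
        have c3 : vN s M T (x + 1) (y + 1) = vE (rk T i) i r x' := vN_row hi hr hx' hy
        have u1 := deg_hx (T := T) (a := a) (ch := ch) hi hr hx' hy
        have u3 := deg_vx (T := T) (a := a) (ch := ch) hi hr hx' hy
        have c2 : hN s M T x (y + 1) = degWC (rk T i) r x' := by
          unfold degWC
          by_cases h3 : x' = 0
          · rw [if_pos h3, show x = 4 + 4 * s.length by omega, deg_west h0, if_neg (by omega),
              if_pos (by omega), show (y + 1 - 4) % 6 = r by omega]
          · rw [if_neg h3]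
            exact hN_row hi hr (by omega) hy
        have u2 : hNU s M T a ch x (y + 1) = degWU (rk T i) (bst s a i s.length)
            (bst s a (i - 1) s.length) r x' := by
          unfold degWU
          by_cases h3 : x' = 0
          · rw [if_pos h3, show x = 4 + 4 * s.length by omega, deg_west_use h0, deg_west h0,
              if_neg (by omega), if_pos (by omega), show (y + 1 - 4) % 6 = r by omega]
            split_ifs with h4 <;> simp [h4]
          · rw [if_neg h3]
            exact deg_hx hi hr (by omega) hy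
        have c4 : vN s M T (x + 1) y = degN (rk T i) i r x' := by
          by_cases h3 : r = 0
          · rw [hx', show y = 3 + 6 * i by omega, deg_north0 hT hi, h3]
          · unfold degN
            rw [if_neg h3]
            exact vN_row hi (by omega) hx' (by omega)
        have u4 : vNU s M T a ch (x + 1) y = degNU (rk T i) (bst s a i s.length)
            (bst s a (i - 1) s.length) i r x' := by
          by_cases h3 : r = 0
          · rw [hx', show y = 3 + 6 * i by omega, deg_north0_use hT hi (bst s a i s.length), h3]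
          · unfold degNU
            rw [if_neg h3]
            exact deg_vx hi (by omega) hx' (by omega)
        have hv' : hE (rk T i) r x' = 0 ∨ degWC (rk T i) r x' = 0 ∨ vE (rk T i) i r x' = 0 ∨
            degN (rk T i) i r x' = 0 := by
          rw [← c1, ← c2, ← c3, ← c4]
          exact hv
        have hx19 : x' < 19 := by
          by_contra h3
          rcases hv' with h | h | h | h
          · rw [deg_hE_big _ _ _ (by omega)] at h
            omega
          · unfold degWC at h
            rw [if_neg (by omega), deg_hE_big _ _ _ (by omega)] at h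
            omega
          · rw [deg_vE_big _ _ _ _ (by omega)] at h
            omega
          · unfold degN at h
            by_cases h4 : r = 0
            · rw [if_pos h4, if_neg (by omega), if_neg (by omega)] at h
              omega
            · rw [if_neg h4, deg_vE_big _ _ _ _ (by omega)] at h
              omega
        rw [u1, u2, u3, u4, deg_mod_U, deg_vE_mod (rk T i) i r x']
        rw [deg_mod_C, deg_vE_mod (rk T i) i r x'] at hv'
        exact deg_loc (rk T i) (bst s a i s.length) (bst s a (i - 1) s.length) ⟨i % 2, by omega⟩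
          ⟨r, hr⟩ ⟨x', hx19⟩ hv'
      · exfalso
        rw [hx'] at hv
        exact deg_no_bot hT x' (y + 1) hy hv

end Pool.Agent.Helper96.SE
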