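import Pool.Agent.Helper8.SE.Sheet

/-! Row ULT of sheet SE: weak-star limits along an ultrafilter (Banach-Alaoglu). -/

open scoped ContDiff
open Set Filter Topology

universe u

namespace Pool.Agent.Helper63.SE

open Pool.Agent.Helper8.SE

theorem stULT : ST_ULT.{u} := by
  intro X _ _ u hu F
  have hK := WeakDual.isCompact_closedBall (0 : StrongDual ℝ X) 1
  have hm : ((F.map fun n => StrongDual.toWeakDual (u n) : Ultrafilter (WeakDual ℝ X)) :
      Filter (WeakDual ℝ X)) ≤ 𝓟 (WeakDual.toStrongDual ⁻¹' Metric.closedBall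
        (0 : StrongDual ℝ X) 1) := by
    rw [Ultrafilter.coe_map, le_principal_iff, mem_map]
    refine Filter.univ_mem' fun n => ?_
    show WeakDual.toStrongDual (StrongDual.toWeakDual (u n)) ∈ Metric.closedBall _ _
    rw [mem_closedBall_zero_iff]
    exact hu n
  obtain ⟨f, hf, hle⟩ := hK.ultrafilter_le_nhds _ hm
  refine ⟨WeakDual.toStrongDual f, ?_, fun x => ?_⟩
  · have := hf
    rw [mem_preimage, mem_closedBall_zero_iff] at this
    exact this
  · have hc : Continuous (fun g : WeakDual ℝ X => g x) := WeakDual.eval_continuous x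
    exact (hc.tendsto f).comp
      (show Tendsto (fun n => StrongDual.toWeakDual (u n)) F (𝓝 f) from hle)

end Pool.Agent.Helper63.SE
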